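import Mathlib

/-!
# A cubic solid brick with two disjoint odd cycles

Finite loopless multigraphs, perfect matchings, cuts, cut contractions, tight and separating
cuts, bricks and solid matching covered graphs are defined as in the problem file.  The main
theorem exhibits a (simple) cubic brick on 12 vertices which is solid and contains two
vertex-disjoint 5-cycles.
-/

namespace Pool.Agent.Results.MP_c2f3ae_co.SolidNotIntercyclic

/-- A loopless multigraph with vertex set `V` and edge set `E`: every edge `e` has an unordered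
pair `ends e` of distinct ends; parallel edges are allowed. -/
structure MGraph (V E : Type) where
  ends : E → Sym2 V
  loopless : ∀ e, ¬ (ends e).IsDiag

namespace MGraph

variable {V E : Type}

/-- Every vertex is an end of exactly three edges. -/
def Cubic (G : MGraph V E) : Prop := ∀ v, {e : E | v ∈ G.ends e}.ncard = 3

/-- No two edges are parallel. -/
def Simple (G : MGraph V E) : Prop := Function.Injective G.ends

/-- `u` and `v` are the ends of an edge. -/
def Joined (G : MGraph V E) (u v : V) : Prop := ∃ e, G.ends e = s(u, v)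

/-- Any two vertices are linked by a walk. -/
def Connected (G : MGraph V E) : Prop := ∀ u v, Relation.ReflTransGen G.Joined u v

/-- `M` is a perfect matching: each vertex is an end of exactly one edge of `M`. -/
def IsPM (G : MGraph V E) (M : Set E) : Prop := ∀ v, ∃! e, e ∈ M ∧ v ∈ G.ends e

/-- Matching covered: connected, at least two vertices, each edge in a perfect matching. -/
def MatchingCovered (G : MGraph V E) : Prop :=
  G.Connected ∧ Nontrivial V ∧ ∀ e, ∃ M, G.IsPM M ∧ e ∈ M

/-- The edges with exactly one end in `X`. -/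
def cut (G : MGraph V E) (X : Set V) : Set E :=
  {e | ∃ u v, G.ends e = s(u, v) ∧ u ∈ X ∧ v ∉ X}

open Classical in
/-- The map shrinking `X` to the single vertex `none`. -/
noncomputable def shrink (X : Set V) (v : V) : Option {v : V // v ∉ X} :=
  if h : v ∈ X then none else some ⟨v, h⟩

/-- The graph `G / X`: shrink `X` to a single vertex, delete the loops, keep parallel edges. -/
noncomputable def contract (G : MGraph V E) (X : Set V) :
    MGraph (Option {v : V // v ∉ X}) {e : E // ¬ ((G.ends e).map (shrink X)).IsDiag} where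
  ends e := (G.ends e.1).map (shrink X)
  loopless e := e.2

/-- The cut of `X` is tight: each perfect matching has exactly one edge in it. -/
def Tight (G : MGraph V E) (X : Set V) : Prop := ∀ M, G.IsPM M → (M ∩ G.cut X).ncard = 1

/-- The cut of `X` is separating: both contractions are matching covered. -/
def Separating (G : MGraph V E) (X : Set V) : Prop :=
  (G.contract X).MatchingCovered ∧ (G.contract Xᶜ).MatchingCovered

/-- The cut of `X` is trivial: one of the two shores is a single vertex. -/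
def Trivial (X : Set V) : Prop := X.ncard = 1 ∨ Xᶜ.ncard = 1

/-- The vertices have a 2-colouring such that each edge has ends of different colours. -/
def Bipartite (G : MGraph V E) : Prop :=
  ∃ A : Set V, ∀ e u v, G.ends e = s(u, v) → (u ∈ A ↔ v ∉ A)

/-- A brick: nonbipartite, matching covered, without nontrivial tight cut. -/
def Brick (G : MGraph V E) : Prop :=
  G.MatchingCovered ∧ ¬ G.Bipartite ∧ ∀ X : Set V, Odd X.ncard → G.Tight X → Trivial X

/-- Solid: matching covered, and each separating cut is tight. -/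
def Solid (G : MGraph V E) : Prop :=
  G.MatchingCovered ∧ ∀ X : Set V, Odd X.ncard → G.Separating X → G.Tight X

/-- `S` is the vertex set of an odd cycle of `G`. -/
def OddCycle (G : MGraph V E) (S : Set V) : Prop :=
  ∃ k : ℕ, Odd k ∧ ∃ (c : ZMod k → V) (e : ZMod k → E), Function.Injective c ∧
    Function.Injective e ∧ (∀ i, G.ends (e i) = s(c i, c (i + 1))) ∧ S = Set.range c

/-- Every two odd cycles have a common vertex. -/
def OddIntercyclic (G : MGraph V E) : Prop :=
  ∀ S T : Set V, G.OddCycle S → G.OddCycle T → (S ∩ T).Nonempty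

/-! ### Separating cuts -/

theorem shrink_of_mem {X : Set V} {v : V} (h : v ∈ X) : shrink X v = none := by
  simp [shrink, h]

theorem shrink_of_not_mem {X : Set V} {v : V} (h : v ∉ X) : shrink X v = some ⟨v, h⟩ := by
  simp [shrink, h]

theorem shrink_eq_some {X : Set V} {v : V} {w : {v : V // v ∉ X}} :
    shrink X v = some w ↔ v = w.1 := by
  constructor
  · intro h
    by_cases hv : v ∈ X
    · rw [shrink_of_mem hv] at h; cases h
    · rw [shrink_of_not_mem hv] at h
      have := Option.some.inj h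
      rw [← this]
  · intro h
    subst h
    exact shrink_of_not_mem w.2

theorem shrink_eq_none {X : Set V} {v : V} : shrink X v = none ↔ v ∈ X := by
  constructor
  · intro h
    by_contra hv
    rw [shrink_of_not_mem hv] at h; cases h
  · exact shrink_of_mem

theorem some_mem_map {X : Set V} (z : Sym2 V) (w : {v : V // v ∉ X}) :
    some w ∈ z.map (shrink X) ↔ w.1 ∈ z := by
  rw [Sym2.mem_map]
  constructor
  · rintro ⟨a, ha, h⟩
    rw [shrink_eq_some] at h
    rwa [← h]
  · intro h
    exact ⟨w.1, h, shrink_eq_some.2 rfl⟩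

theorem none_mem_map {X : Set V} (z : Sym2 V) :
    none ∈ z.map (shrink X) ↔ ∃ u ∈ z, u ∈ X := by
  rw [Sym2.mem_map]
  constructor
  · rintro ⟨a, ha, h⟩
    exact ⟨a, ha, shrink_eq_none.1 h⟩
  · rintro ⟨u, hu, h⟩
    exact ⟨u, hu, shrink_eq_none.2 h⟩

/-- An edge is a loop of `G / X` iff both its ends are in `X`. -/
theorem isDiag_map (G : MGraph V E) (X : Set V) (e : E) :
    ((G.ends e).map (shrink X)).IsDiag ↔ ∀ v ∈ G.ends e, v ∈ X := by
  have hl := G.loopless e
  revert hl
  induction G.ends e using Sym2.ind with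
  | _ a b =>
    intro hl
    rw [Sym2.mk_isDiag_iff] at hl
    rw [Sym2.map_mk, Sym2.mk_isDiag_iff]
    constructor
    · intro h v hv
      by_cases ha : a ∈ X
      · rw [shrink_of_mem ha] at h
        have hb := shrink_eq_none.1 h.symm
        rcases Sym2.mem_iff.1 hv with rfl | rfl
        · exact ha
        · exact hb
      · rw [shrink_of_not_mem ha] at h
        have hb := shrink_eq_some.1 h.symm
        exact absurd hb.symm hl
    · intro h
      rw [shrink_of_mem (h a (Sym2.mem_mk_left a b)), shrink_of_mem (h b (Sym2.mem_mk_right a b))]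

theorem mem_cut_iff (G : MGraph V E) (X : Set V) (e : E) :
    e ∈ G.cut X ↔ (∃ u ∈ G.ends e, u ∈ X) ∧ (∃ v ∈ G.ends e, v ∉ X) := by
  constructor
  · rintro ⟨u, v, h, hu, hv⟩
    exact ⟨⟨u, by rw [h]; exact Sym2.mem_mk_left u v, hu⟩,
      ⟨v, by rw [h]; exact Sym2.mem_mk_right u v, hv⟩⟩
  · rintro ⟨⟨u, hu, huX⟩, ⟨v, hv, hvX⟩⟩
    refine ⟨u, v, ?_, huX, hvX⟩
    have huv : u ≠ v := by rintro rfl; exact hvX huX
    exact (Sym2.mem_and_mem_iff huv).1 ⟨hu, hv⟩

theorem cut_compl (G : MGraph V E) (X : Set V) : G.cut Xᶜ = G.cut X := by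
  ext e
  rw [mem_cut_iff, mem_cut_iff]
  simp only [Set.mem_compl_iff, not_not]
  tauto

/-- From a separating cut: every edge lies in a perfect matching meeting the cut once. -/
theorem glue (G : MGraph V E) (X : Set V)
    (N : Set {e : E // ¬ ((G.ends e).map (shrink X)).IsDiag})
    (N' : Set {e : E // ¬ ((G.ends e).map (shrink Xᶜ)).IsDiag})
    (hN : (G.contract X).IsPM N) (hN' : (G.contract Xᶜ).IsPM N') (f : E)
    (hf : f ∈ G.cut X) (h1 : ∃ h, (⟨f, h⟩ : {e : E // _}) ∈ N)
    (h2 : ∃ h, (⟨f, h⟩ : {e : E // _}) ∈ N') :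
    G.IsPM ({e | ∃ h, (⟨e, h⟩ : {e : E // _}) ∈ N} ∪ {e | ∃ h, (⟨e, h⟩ : {e : E // _}) ∈ N'}) ∧
      ({e | ∃ h, (⟨e, h⟩ : {e : E // _}) ∈ N} ∪ {e | ∃ h, (⟨e, h⟩ : {e : E // _}) ∈ N'}) ∩
        G.cut X = {f} := by
  -- the only edge of `N` in the cut is `f`
  have only1 : ∀ e, e ∈ G.cut X → (∃ h, (⟨e, h⟩ : {e : E // _}) ∈ N) → e = f := by
    rintro e he ⟨h, hm⟩
    obtain ⟨h', hm'⟩ := h1
    obtain ⟨g, -, hg⟩ := hN none
    have a1 := hg ⟨e, h⟩ ⟨hm, (none_mem_map _).2 ((G.mem_cut_iff X e).1 he).1⟩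
    have a2 := hg ⟨f, h'⟩ ⟨hm', (none_mem_map _).2 ((G.mem_cut_iff X f).1 hf).1⟩
    have := a1.trans a2.symm
    exact congrArg Subtype.val this
  have only2 : ∀ e, e ∈ G.cut X → (∃ h, (⟨e, h⟩ : {e : E // _}) ∈ N') → e = f := by
    rintro e he ⟨h, hm⟩
    obtain ⟨h', hm'⟩ := h2
    obtain ⟨g, -, hg⟩ := hN' none
    have a1 := hg ⟨e, h⟩ ⟨hm, (none_mem_map _).2 ((G.mem_cut_iff X e).1 he).2⟩
    have a2 := hg ⟨f, h'⟩ ⟨hm', (none_mem_map _).2 ((G.mem_cut_iff X f).1 hf).2⟩
    have := a1.trans a2.symm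
    exact congrArg Subtype.val this
  constructor
  · intro v
    by_cases hv : v ∈ X
    · obtain ⟨g, ⟨hg1, hg2⟩, hg3⟩ := hN' (some ⟨v, by simpa using hv⟩)
      refine ⟨g.1, ⟨Or.inr ⟨g.2, hg1⟩, (some_mem_map _ _).1 hg2⟩, ?_⟩
      rintro e ⟨hm | hm, hve⟩
      · -- edge of `N` at a vertex of `X`: it is in the cut
        have hc : e ∈ G.cut X := by
          rw [mem_cut_iff]
          refine ⟨⟨v, hve, hv⟩, ?_⟩
          obtain ⟨h, -⟩ := hm
          by_contra hcon
          apply h
          rw [isDiag_map]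
          intro w hw
          by_contra hwX
          exact hcon ⟨w, hw, hwX⟩
        have hef := only1 e hc hm
        obtain ⟨h', hm'⟩ := h2
        have := hg3 ⟨f, h'⟩ ⟨hm', (some_mem_map _ _).2 (show v ∈ G.ends f from hef ▸ hve)⟩
        rw [hef, ← this]
      · obtain ⟨h, hm⟩ := hm
        have := hg3 ⟨e, h⟩ ⟨hm, (some_mem_map _ _).2 hve⟩
        exact congrArg Subtype.val this
    · obtain ⟨g, ⟨hg1, hg2⟩, hg3⟩ := hN (some ⟨v, hv⟩)
      refine ⟨g.1, ⟨Or.inl ⟨g.2, hg1⟩, (some_mem_map _ _).1 hg2⟩, ?_⟩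
      rintro e ⟨hm | hm, hve⟩
      · obtain ⟨h, hm⟩ := hm
        have := hg3 ⟨e, h⟩ ⟨hm, (some_mem_map _ _).2 hve⟩
        exact congrArg Subtype.val this
      · have hc : e ∈ G.cut X := by
          rw [mem_cut_iff]
          refine ⟨?_, ⟨v, hve, hv⟩⟩
          obtain ⟨h, -⟩ := hm
          by_contra hcon
          apply h
          rw [isDiag_map]
          intro w hw hwX
          exact hcon ⟨w, hw, hwX⟩
        have hef := only2 e hc hm
        obtain ⟨h', hm'⟩ := h1
        have := hg3 ⟨f, h'⟩ ⟨hm', (some_mem_map _ _).2 (show v ∈ G.ends f from hef ▸ hve)⟩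
        rw [hef, ← this]
  · ext e
    constructor
    · rintro ⟨hm | hm, hc⟩
      · exact only1 e hc hm
      · exact only2 e hc hm
    · intro he
      rw [Set.mem_singleton_iff] at he
      subst he
      exact ⟨Or.inl h1, hf⟩

theorem exists_cut_edge (G : MGraph V E) (X : Set V)
    (N : Set {e : E // ¬ ((G.ends e).map (shrink X)).IsDiag})
    (hN : (G.contract X).IsPM N) :
    ∃ f, f ∈ G.cut X ∧ ∃ h, (⟨f, h⟩ : {e : E // _}) ∈ N := by
  obtain ⟨g, ⟨hg1, hg2⟩, -⟩ := hN none
  refine ⟨g.1, ?_, g.2, hg1⟩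
  rw [mem_cut_iff]
  refine ⟨(none_mem_map _).1 hg2, ?_⟩
  by_contra hcon
  apply g.2
  rw [isDiag_map]
  intro w hw
  by_contra hwX
  exact hcon ⟨w, hw, hwX⟩

theorem not_loop_of_cut (G : MGraph V E) (X : Set V) {e : E} (he : e ∈ G.cut X) :
    ¬ ((G.ends e).map (shrink X)).IsDiag := by
  rw [isDiag_map]
  intro h
  obtain ⟨-, v, hv, hvX⟩ := (G.mem_cut_iff X e).1 he
  exact hvX (h v hv)

theorem separating_cover (G : MGraph V E) (X : Set V) (h : G.Separating X) (e : E) :
    ∃ M, G.IsPM M ∧ e ∈ M ∧ (M ∩ G.cut X).ncard = 1 := by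
  obtain ⟨⟨-, -, h1⟩, ⟨-, -, h2⟩⟩ := h
  have key : ∀ f, f ∈ G.cut X →
      ∀ N : Set {e : E // ¬ ((G.ends e).map (shrink X)).IsDiag}, (G.contract X).IsPM N →
      ∀ N' : Set {e : E // ¬ ((G.ends e).map (shrink Xᶜ)).IsDiag}, (G.contract Xᶜ).IsPM N' →
      (∃ h, (⟨f, h⟩ : {e : E // _}) ∈ N) → (∃ h, (⟨f, h⟩ : {e : E // _}) ∈ N') →
      ((∃ h, (⟨e, h⟩ : {e : E // _}) ∈ N) ∨ (∃ h, (⟨e, h⟩ : {e : E // _}) ∈ N')) →
      ∃ M, G.IsPM M ∧ e ∈ M ∧ (M ∩ G.cut X).ncard = 1 := by
    intro f hf N hN N' hN' a b c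
    obtain ⟨p, q⟩ := G.glue X N N' hN hN' f hf a b
    exact ⟨_, p, c, by rw [q]; exact Set.ncard_singleton f⟩
  by_cases hc : e ∈ G.cut X
  · have e1 := G.not_loop_of_cut X hc
    have e2 := G.not_loop_of_cut Xᶜ (by rw [cut_compl]; exact hc)
    obtain ⟨N, hN, hm⟩ := h1 ⟨e, e1⟩
    obtain ⟨N', hN', hm'⟩ := h2 ⟨e, e2⟩
    exact key e hc N hN N' hN' ⟨e1, hm⟩ ⟨e2, hm'⟩ (Or.inl ⟨e1, hm⟩)
  · by_cases hX : ∀ v ∈ G.ends e, v ∈ X
    · have e2 : ¬ ((G.ends e).map (shrink Xᶜ)).IsDiag := by
        rw [isDiag_map]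
        intro h
        revert hX h
        induction G.ends e using Sym2.ind with
        | _ a b =>
          intro hX h
          exact h a (Sym2.mem_mk_left a b) (hX a (Sym2.mem_mk_left a b))
      obtain ⟨N', hN', hm'⟩ := h2 ⟨e, e2⟩
      obtain ⟨f, hf, hf2, hfm⟩ := G.exists_cut_edge Xᶜ N' hN'
      rw [cut_compl] at hf
      have f1 := G.not_loop_of_cut X hf
      obtain ⟨N, hN, hm⟩ := h1 ⟨f, f1⟩
      exact key f hf N hN N' hN' ⟨f1, hm⟩ ⟨hf2, hfm⟩ (Or.inr ⟨e2, hm'⟩)
    · have e1 : ¬ ((G.ends e).map (shrink X)).IsDiag := by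
        rw [isDiag_map]; exact hX
      obtain ⟨N, hN, hm⟩ := h1 ⟨e, e1⟩
      obtain ⟨f, hf, hf1, hfm⟩ := G.exists_cut_edge X N hN
      have f2 := G.not_loop_of_cut Xᶜ (by rw [cut_compl]; exact hf)
      obtain ⟨N', hN', hm'⟩ := h2 ⟨f, f2⟩
      exact key f hf N hN N' hN' ⟨hf1, hfm⟩ ⟨f2, hm'⟩ (Or.inl ⟨e1, hm⟩)

end MGraph

/-! ### The graph -/

open MGraph

/-- First ends of the 18 edges. -/
def src : Fin 18 → Fin 12 := ![0, 0, 0, 1, 1, 2, 2, 3, 3, 4, 5, 5, 6, 6, 7, 7, 8, 9]

/-- Second ends of the 18 edges. -/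
def tgt : Fin 18 → Fin 12 := ![1, 4, 10, 2, 8, 3, 11, 4, 10, 5, 6, 9, 7, 10, 8, 11, 9, 11]

/-- The graph: the 5-cycles `01234` and `56789`, the edges `18` and `45`, the vertex 10 joined
to 0, 3, 6, and the vertex 11 joined to 2, 7, 9. -/
def G12 : MGraph (Fin 12) (Fin 18) where
  ends e := s(src e, tgt e)
  loopless e := by
    rw [Sym2.mk_isDiag_iff]
    revert e
    decide

/-- The perfect matchings, as lists of edges. -/
def PMs : List (List (Fin 18)) :=
  [[0, 5, 9, 13, 14, 17], [0, 5, 9, 13, 15, 16], [0, 6, 7, 11, 13, 14], [0, 6, 8, 9, 12, 16],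
   [1, 3, 8, 10, 14, 17], [1, 3, 8, 10, 15, 16], [1, 4, 5, 11, 13, 15], [1, 4, 6, 8, 11, 12],
   [2, 3, 7, 10, 14, 17], [2, 3, 7, 10, 15, 16], [2, 4, 5, 9, 12, 17], [2, 4, 6, 7, 11, 12]]

/-- Exactly one of three. -/
def one (a b c : Bool) : Bool := (a && !b && !c) || (!a && b && !c) || (!a && !b && c)

theorem mem_ends (e : Fin 18) (v : Fin 12) : v ∈ G12.ends e ↔ v = src e ∨ v = tgt e :=
  Sym2.mem_iff

theorem pm_of_list : ∀ l ∈ PMs, ∀ v : Fin 12,
    ∃! e : Fin 18, e ∈ l ∧ (v = src e ∨ v = tgt e) := by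
  decide +kernel

theorem isPM_of_list (l : List (Fin 18)) (hl : l ∈ PMs) : G12.IsPM {e | e ∈ l} := by
  intro v
  obtain ⟨e, ⟨h1, h2⟩, h3⟩ := pm_of_list l hl v
  refine ⟨e, ⟨h1, (mem_ends e v).2 h2⟩, ?_⟩
  rintro e' ⟨h4, h5⟩
  exact h3 e' ⟨h4, (mem_ends e' v).1 h5⟩

/-- Conjunction over both truth values. -/
def allB (f : Bool → Bool) : Bool := f true && f false

theorem of_allB {f : Bool → Bool} (h : allB f = true) (b : Bool) : f b = true := by
  unfold allB at h
  rw [Bool.and_eq_true] at h
  cases b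
  · exact h.2
  · exact h.1

/-- Boolean implication. -/
def imp (a b : Bool) : Bool := !a || b

theorem of_imp {a b : Bool} (h : imp a b = true) (ha : a = true) : b = true := by
  subst ha
  simpa [imp] using h

theorem table : allB (fun m0 => allB (fun m1 => allB (fun m2 => imp (one m0 m1 m2)
    (allB (fun m3 => allB (fun m4 => imp (one m0 m3 m4)
    (allB (fun m5 => allB (fun m6 => imp (one m3 m5 m6)
    (allB (fun m7 => allB (fun m8 => imp (one m5 m7 m8)
    (allB (fun m9 => imp (one m1 m7 m9)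
    (allB (fun m10 => allB (fun m11 => imp (one m9 m10 m11)
    (allB (fun m12 => allB (fun m13 => imp (one m10 m12 m13) (imp (one m2 m8 m13)
    (allB (fun m14 => allB (fun m15 => imp (one m12 m14 m15)
    (allB (fun m16 => imp (one m4 m14 m16)
    (allB (fun m17 => imp (one m11 m16 m17) (imp (one m6 m15 m17)
    (PMs.any (fun l => decide ([m0, m1, m2, m3, m4, m5, m6, m7, m8, m9, m10, m11, m12, m13, m14,
      m15, m16, m17] = (List.finRange 18).map (fun i => decide (i ∈ l)))
    ))))))))))))))))))))))))))))))) = true := by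
  decide +kernel

theorem one_of (M : Set (Fin 18)) (hM : G12.IsPM M) (m : Fin 18 → Bool)
    (hm : ∀ e, m e = true ↔ e ∈ M) (v : Fin 12) (a b c : Fin 18) (hab : a ≠ b) (hac : a ≠ c)
    (hbc : b ≠ c)
    (h : ∀ e, (v = src e ∨ v = tgt e) ↔ (e = a ∨ e = b ∨ e = c)) :
    one (m a) (m b) (m c) = true := by
  obtain ⟨e, ⟨h1, h2⟩, h3⟩ := hM v
  have key : ∀ x, m x = true → (x = a ∨ x = b ∨ x = c) → x = e := fun x hx hx' =>
    h3 x ⟨(hm x).1 hx, (mem_ends x v).2 ((h x).2 hx')⟩
  have he := (h e).1 ((mem_ends e v).1 h2)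
  have ka := key a
  have kb := key b
  have kc := key c
  have hme := (hm e).2 h1
  simp only [true_or, or_true, forall_true_left] at ka kb kc
  rcases he with rfl | rfl | rfl
  · have hb : m b = false := by
      by_contra hb; exact hab (kb (by simpa using hb)).symm
    have hc : m c = false := by
      by_contra hc; exact hac (kc (by simpa using hc)).symm
    rw [hme, hb, hc]; rfl
  · have ha : m a = false := by
      by_contra ha; exact hab (ka (by simpa using ha))
    have hc : m c = false := by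
      by_contra hc; exact hbc (kc (by simpa using hc)).symm
    rw [hme, ha, hc]; rfl
  · have ha : m a = false := by
      by_contra ha; exact hac (ka (by simpa using ha))
    have hb : m b = false := by
      by_contra hb; exact hbc (kb (by simpa using hb))
    rw [hme, ha, hb]; rfl

theorem list_of_isPM (M : Set (Fin 18)) (hM : G12.IsPM M) :
    ∃ l ∈ PMs, M = {e | e ∈ l} := by
  classical
  have hm : ∀ e, (fun e => decide (e ∈ M) : Fin 18 → Bool) e = true ↔ e ∈ M := by
    intro e; simp
  generalize (fun e => decide (e ∈ M) : Fin 18 → Bool) = m at hm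
  have o := one_of M hM m hm
  have t0 := of_imp (of_allB (of_allB (of_allB table (m 0)) (m 1)) (m 2))
    (o 0 0 1 2 (by decide) (by decide) (by decide) (by decide))
  have t1 := of_imp (of_allB (of_allB t0 (m 3)) (m 4))
    (o 1 0 3 4 (by decide) (by decide) (by decide) (by decide))
  have t2 := of_imp (of_allB (of_allB t1 (m 5)) (m 6))
    (o 2 3 5 6 (by decide) (by decide) (by decide) (by decide))
  have t3 := of_imp (of_allB (of_allB t2 (m 7)) (m 8))
    (o 3 5 7 8 (by decide) (by decide) (by decide) (by decide))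
  have t4 := of_imp (of_allB t3 (m 9))
    (o 4 1 7 9 (by decide) (by decide) (by decide) (by decide))
  have t5 := of_imp (of_allB (of_allB t4 (m 10)) (m 11))
    (o 5 9 10 11 (by decide) (by decide) (by decide) (by decide))
  have t6 := of_imp (of_imp (of_allB (of_allB t5 (m 12)) (m 13))
    (o 6 10 12 13 (by decide) (by decide) (by decide) (by decide)))
    (o 10 2 8 13 (by decide) (by decide) (by decide) (by decide))
  have t7 := of_imp (of_allB (of_allB t6 (m 14)) (m 15))
    (o 7 12 14 15 (by decide) (by decide) (by decide) (by decide))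
  have t8 := of_imp (of_allB t7 (m 16))
    (o 8 4 14 16 (by decide) (by decide) (by decide) (by decide))
  have t9 := of_imp (of_imp (of_allB t8 (m 17))
    (o 9 11 16 17 (by decide) (by decide) (by decide) (by decide)))
    (o 11 6 15 17 (by decide) (by decide) (by decide) (by decide))
  obtain ⟨l, hl, h0⟩ := List.any_eq_true.1 t9
  have h := of_decide_eq_true h0
  refine ⟨l, hl, ?_⟩
  have h' : (List.finRange 18).map m = (List.finRange 18).map (fun i => decide (i ∈ l)) := h
  rw [List.map_inj_left] at h'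
  ext e
  have := h' e (List.mem_finRange e)
  rw [← hm e, this]
  simp

/-- The finite check: for every odd set of vertices which is neither a single vertex nor the
complement of one, some edge is contained in no perfect matching meeting the cut once. -/
def good (x : ℕ) : Bool :=
  let k := ((List.finRange 12).filter (fun i => x.testBit i.val)).length
  k % 2 == 0 || k == 1 || k == 11 ||
    (List.finRange 18).any (fun e => PMs.all (fun l => !(l.contains e) ||
      (l.filter (fun i => xor (x.testBit (src i).val) (x.testBit (tgt i).val))).length != 1))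

theorem all_good : (List.range 4096).all good = true := by
  decide +kernel

theorem exists_bits (n : ℕ) : ∀ b : ℕ → Bool, ∃ x < 2 ^ n, ∀ i < n, x.testBit i = b i := by
  induction n with
  | zero => intro b; exact ⟨0, by norm_num, fun i hi => absurd hi (Nat.not_lt_zero i)⟩
  | succ n ih =>
    intro b
    obtain ⟨y, hy, hb⟩ := ih (fun i => b (i + 1))
    refine ⟨Nat.bit (b 0) y, ?_, ?_⟩
    · rw [Nat.bit_val, pow_succ]
      have : (b 0).toNat ≤ 1 := Bool.toNat_le (b 0)
      omega
    · intro i hi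
      cases i with
      | zero => exact Nat.testBit_bit_zero (b 0) y
      | succ i =>
        rw [Nat.testBit_bit_succ]
        exact hb i (by omega)

theorem ncard_of_list {n : ℕ} (l : List (Fin n)) (hl : l.Nodup) :
    ({e | e ∈ l} : Set (Fin n)).ncard = l.length := by
  classical
  have : ({e | e ∈ l} : Set (Fin n)) = (l.toFinset : Set (Fin n)) := by
    ext e; simp
  rw [this, Set.ncard_coe_finset, List.toFinset_card_of_nodup hl]

theorem nodup_PMs : ∀ l ∈ PMs, l.Nodup := by decide

theorem good_set (X : Set (Fin 12)) (hodd : Odd X.ncard) (hX : ¬ Trivial X) :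
    ∃ e, ∀ M, G12.IsPM M → e ∈ M → (M ∩ G12.cut X).ncard ≠ 1 := by
  classical
  obtain ⟨x, hx, hb⟩ := exists_bits 12
    (fun i => if h : i < 12 then decide ((⟨i, h⟩ : Fin 12) ∈ X) else false)
  have hbit : ∀ i : Fin 12, x.testBit i.val = true ↔ i ∈ X := by
    intro i
    rw [hb i.val i.isLt]
    simp
  have hg : good x = true := by
    have := all_good
    rw [List.all_eq_true] at this
    exact this x (List.mem_range.2 (by simpa using hx))
  have hk : X.ncard = ((List.finRange 12).filter (fun i => x.testBit i.val)).length := by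
    rw [← ncard_of_list _ ((List.nodup_finRange 12).filter _)]
    congr 1
    ext i
    rw [← hbit i]
    simp
  have hcompl : X.ncard + Xᶜ.ncard = 12 := by
    rw [Set.ncard_add_ncard_compl]
    simp
  unfold good at hg
  rw [← hk] at hg
  simp only [Bool.or_eq_true, beq_iff_eq] at hg
  unfold Trivial at hX
  rw [not_or] at hX
  obtain ⟨h1, h2⟩ := hX
  have h3 : X.ncard % 2 = 1 := Nat.odd_iff.1 hodd
  rcases hg with ((hg | hg) | hg) | hg
  · omega
  · omega
  · omega
  · rw [List.any_eq_true] at hg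
    obtain ⟨e, -, he⟩ := hg
    refine ⟨e, ?_⟩
    intro M hM hem hcard
    obtain ⟨l, hl, rfl⟩ := list_of_isPM M hM
    rw [List.all_eq_true] at he
    have hel := he l hl
    rw [Bool.or_eq_true] at hel
    have hmem : e ∈ l := hem
    rcases hel with hel | hel
    · rw [List.contains_iff_mem.2 hmem] at hel
      cases hel
    · rw [bne_iff_ne] at hel
      apply hel
      rw [← hcard, ← ncard_of_list _ ((nodup_PMs l hl).filter _)]
      congr 1
      ext i
      have hc : i ∈ G12.cut X ↔
          xor (x.testBit (src i).val) (x.testBit (tgt i).val) = true := by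
        rw [mem_cut_iff]
        have e1 : (∃ u ∈ G12.ends i, u ∈ X) ↔ (src i ∈ X ∨ tgt i ∈ X) := by
          constructor
          · rintro ⟨u, hu, hX⟩
            rcases (mem_ends i u).1 hu with rfl | rfl
            · exact Or.inl hX
            · exact Or.inr hX
          · rintro (h | h)
            · exact ⟨_, (mem_ends i _).2 (Or.inl rfl), h⟩
            · exact ⟨_, (mem_ends i _).2 (Or.inr rfl), h⟩
        have e2 : (∃ u ∈ G12.ends i, u ∉ X) ↔ (src i ∉ X ∨ tgt i ∉ X) := by
          constructor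
          · rintro ⟨u, hu, hX⟩
            rcases (mem_ends i u).1 hu with rfl | rfl
            · exact Or.inl hX
            · exact Or.inr hX
          · rintro (h | h)
            · exact ⟨_, (mem_ends i _).2 (Or.inl rfl), h⟩
            · exact ⟨_, (mem_ends i _).2 (Or.inr rfl), h⟩
        rw [e1, e2, ← hbit (src i), ← hbit (tgt i)]
        cases x.testBit (src i).val <;> cases x.testBit (tgt i).val <;> simp
      constructor
      · intro h
        have h' := List.mem_filter.1 h
        exact ⟨h'.1, hc.2 h'.2⟩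
      · rintro ⟨h, h'⟩
        exact List.mem_filter.2 ⟨h, hc.1 h'⟩

/-! ### The main theorem -/

theorem cover : ∀ e : Fin 18, ∃ l ∈ PMs, e ∈ l := by decide

theorem joined_symm {u v : Fin 12} (h : G12.Joined u v) : G12.Joined v u := by
  obtain ⟨e, he⟩ := h
  exact ⟨e, by rw [he, Sym2.eq_swap]⟩

theorem reach (e : Fin 18) : G12.Joined (src e) (tgt e) := ⟨e, rfl⟩

theorem connected12 : G12.Connected := by
  have h0 : ∀ v, Relation.ReflTransGen G12.Joined 0 v := by
    have r0 : Relation.ReflTransGen G12.Joined 0 0 := Relation.ReflTransGen.refl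
    have r1 : Relation.ReflTransGen G12.Joined 0 1 := r0.tail (reach 0)
    have r4 : Relation.ReflTransGen G12.Joined 0 4 := r0.tail (reach 1)
    have r10 : Relation.ReflTransGen G12.Joined 0 10 := r0.tail (reach 2)
    have r2 : Relation.ReflTransGen G12.Joined 0 2 := r1.tail (reach 3)
    have r8 : Relation.ReflTransGen G12.Joined 0 8 := r1.tail (reach 4)
    have r3 : Relation.ReflTransGen G12.Joined 0 3 := r2.tail (reach 5)
    have r11 : Relation.ReflTransGen G12.Joined 0 11 := r2.tail (reach 6)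
    have r5 : Relation.ReflTransGen G12.Joined 0 5 := r4.tail (reach 9)
    have r6 : Relation.ReflTransGen G12.Joined 0 6 := r5.tail (reach 10)
    have r9 : Relation.ReflTransGen G12.Joined 0 9 := r5.tail (reach 11)
    have r7 : Relation.ReflTransGen G12.Joined 0 7 := r6.tail (reach 12)
    intro v
    fin_cases v
    · exact r0
    · exact r1
    · exact r2
    · exact r3
    · exact r4
    · exact r5
    · exact r6
    · exact r7
    · exact r8
    · exact r9
    · exact r10
    · exact r11
  intro u v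
  have hs : Relation.ReflTransGen G12.Joined u 0 := by
    have := h0 u
    have sym : ∀ a b, Relation.ReflTransGen G12.Joined a b →
        Relation.ReflTransGen G12.Joined b a := by
      intro a b hab
      induction hab with
      | refl => exact Relation.ReflTransGen.refl
      | tail _ h ih => exact ih.head (joined_symm h)
    exact sym _ _ this
  exact hs.trans (h0 v)

theorem mc12 : G12.MatchingCovered := by
  refine ⟨connected12, inferInstance, ?_⟩
  intro e
  obtain ⟨l, hl, he⟩ := cover e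
  exact ⟨_, isPM_of_list l hl, he⟩

theorem cubic12 : G12.Cubic := by
  intro v
  have h : ({e : Fin 18 | v ∈ G12.ends e} : Set (Fin 18)) =
      ((Finset.univ.filter (fun e : Fin 18 => v = src e ∨ v = tgt e) : Finset (Fin 18)) :
        Set (Fin 18)) := by
    ext e
    simp only [Finset.coe_filter, Finset.mem_univ, true_and]
    exact mem_ends e v
  rw [h, Set.ncard_coe_finset]
  clear h
  revert v
  decide

theorem simple12 : G12.Simple := by
  intro a b h
  have h' : s(src a, tgt a) = s(src b, tgt b) := h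
  rw [Sym2.eq_iff] at h'
  revert a b
  decide

/-- The first 5-cycle. -/
theorem oddCycle1 :
    G12.OddCycle (Set.range (fun i : ZMod 5 => (![0, 1, 2, 3, 4] : Fin 5 → Fin 12) i)) := by
  refine ⟨5, by decide, fun i : ZMod 5 => (![0, 1, 2, 3, 4] : Fin 5 → Fin 12) i,
    fun i : ZMod 5 => (![0, 3, 5, 7, 1] : Fin 5 → Fin 18) i, ?_, ?_, ?_, rfl⟩
  · decide
  · decide
  · intro i
    show s(_, _) = s(_, _)
    rw [Sym2.eq_iff]
    revert i
    decide

/-- The second 5-cycle. -/
theorem oddCycle2 :
    G12.OddCycle (Set.range (fun i : ZMod 5 => (![5, 6, 7, 8, 9] : Fin 5 → Fin 12) i)) := by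
  refine ⟨5, by decide, fun i : ZMod 5 => (![5, 6, 7, 8, 9] : Fin 5 → Fin 12) i,
    fun i : ZMod 5 => (![10, 12, 14, 16, 11] : Fin 5 → Fin 18) i, ?_, ?_, ?_, rfl⟩
  · decide
  · decide
  · intro i
    show s(_, _) = s(_, _)
    rw [Sym2.eq_iff]
    revert i
    decide

theorem not_bipartite12 : ¬ G12.Bipartite := by
  rintro ⟨A, hA⟩
  have h0 := hA 0 0 1 rfl
  have h1 := hA 3 1 2 rfl
  have h2 := hA 5 2 3 rfl
  have h3 := hA 7 3 4 rfl
  have h4 := hA 1 0 4 rfl
  tauto

/-- There is a simple cubic brick which is solid, which even has no nontrivial separating cut,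
and which contains two vertex-disjoint odd cycles. -/
theorem result : ∃ G : MGraph (Fin 12) (Fin 18),
    G.Simple ∧ G.Cubic ∧ G.Brick ∧ G.Solid ∧
      (∀ X : Set (Fin 12), Odd X.ncard → G.Separating X → Trivial X) ∧
      (∃ S T : Set (Fin 12), G.OddCycle S ∧ G.OddCycle T ∧ Disjoint S T) ∧
      ¬ G.OddIntercyclic := by
  have hsep : ∀ X : Set (Fin 12), Odd X.ncard → G12.Separating X → Trivial X := by
    intro X hodd hs
    by_contra hX
    obtain ⟨e, he⟩ := good_set X hodd hX
    obtain ⟨M, hM, hem, hc⟩ := G12.separating_cover X hs e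
    exact he M hM hem hc
  have htriv : ∀ X : Set (Fin 12), X.ncard = 1 → G12.Tight X := by
    intro X hX M hM
    obtain ⟨v, rfl⟩ := Set.ncard_eq_one.1 hX
    obtain ⟨e, ⟨h1, h2⟩, h3⟩ := hM v
    rw [Set.ncard_eq_one]
    refine ⟨e, ?_⟩
    ext f
    constructor
    · rintro ⟨hf, hc⟩
      obtain ⟨⟨u, hu, huv⟩, -⟩ := (G12.mem_cut_iff _ f).1 hc
      rw [Set.mem_singleton_iff] at huv
      subst huv
      exact h3 f ⟨hf, hu⟩
    · intro hf
      rw [Set.mem_singleton_iff] at hf
      subst hf
      refine ⟨h1, (G12.mem_cut_iff _ f).2 ⟨⟨v, h2, rfl⟩, ?_⟩⟩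
      by_contra hcon
      apply G12.loopless f
      revert h2 hcon
      induction G12.ends f using Sym2.ind with
      | _ a b =>
        intro h2 hcon
        rw [Sym2.mk_isDiag_iff]
        have ha : a = v := by
          by_contra h; exact hcon ⟨a, Sym2.mem_mk_left a b, h⟩
        have hb : b = v := by
          by_contra h; exact hcon ⟨b, Sym2.mem_mk_right a b, h⟩
        rw [ha, hb]
  have hdisj : Disjoint (Set.range (fun i : ZMod 5 => (![0, 1, 2, 3, 4] : Fin 5 → Fin 12) i))
      (Set.range (fun i : ZMod 5 => (![5, 6, 7, 8, 9] : Fin 5 → Fin 12) i)) := by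
    rw [Set.disjoint_left]
    rintro x ⟨i, rfl⟩ ⟨j, hj⟩
    revert i j
    decide
  refine ⟨G12, simple12, cubic12, ⟨mc12, not_bipartite12, ?_⟩, ⟨mc12, ?_⟩, hsep,
    ⟨_, _, oddCycle1, oddCycle2, hdisj⟩, ?_⟩
  · intro X hodd ht
    by_contra hX
    obtain ⟨e, he⟩ := good_set X hodd hX
    obtain ⟨M, hM, hem⟩ := mc12.2.2 e
    exact he M hM hem (ht M hM)
  · intro X hodd hs
    rcases hsep X hodd hs with h | h
    · exact htriv X h
    · have := htriv Xᶜ h
      intro M hM
      have h' := this M hM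
      rwa [cut_compl] at h'
  · intro h
    obtain ⟨v, hv1, hv2⟩ := h _ _ oddCycle1 oddCycle2
    exact Set.disjoint_left.1 hdisj hv1 hv2

end Pool.Agent.Results.MP_c2f3ae_co.SolidNotIntercyclic
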